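import Pool.Agent.H13.EC.Defs

/-!
# MP_6b5a9a_nt: module GEN (generic points)
-/

open MvPolynomial

namespace Pool.Agent.H42.EC

universe u

theorem gen : Pool.Agent.H13.EC.T_GEN.{u} := by
  intro F _ _ n A S hS
  classical
  obtain ⟨P, hP⟩ : ∃ P : Finset (Σ _ : Fin n, Fin n),
      P = Finset.univ.sigma (fun i => Finset.Ioi i) := ⟨_, rfl⟩
  have hmem : ∀ p : Σ _ : Fin n, Fin n, p ∈ P ↔ p.1 < p.2 := by
    intro p; rw [hP]; simp
  obtain ⟨D, hD⟩ : ∃ D : MvPolynomial (Fin n) F, D = ∏ p ∈ P, (X p.1 - X p.2) := ⟨_, rfl⟩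
  obtain ⟨Q, hQ⟩ : ∃ Q : (Fin n → Fin n → F) → MvPolynomial (Fin n) F, Q = fun a =>
      ∑ p ∈ P, C (a p.1 p.2) * (C A * D + ∏ q ∈ P.erase p, (X q.1 - X q.2)) := ⟨_, rfl⟩
  have hQne : ∀ a ∈ S, Q a ≠ 0 := by
    intro a ha h0
    obtain ⟨i0, j0, hij, hne⟩ := hS a ha
    obtain ⟨φ, hφ⟩ : ∃ φ : MvPolynomial (Fin n) F →ₐ[F] MvPolynomial (Fin n) F,
      φ = aeval (fun k : Fin n => if k = j0 then (X i0 : MvPolynomial (Fin n) F) else X k) :=
        ⟨_, rfl⟩
    have hX : ∀ k, φ (X k) = X (if k = j0 then i0 else k) := by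
      intro k
      rw [hφ, aeval_X]
      split_ifs <;> rfl
    have hp0 : (⟨i0, j0⟩ : Σ _ : Fin n, Fin n) ∈ P := (hmem _).2 hij
    have hX0 : φ (X i0 - X j0) = 0 := by
      rw [map_sub, hX, hX, if_neg hij.ne, if_pos rfl, sub_self]
    have hD0 : φ D = 0 := by
      rw [hD, map_prod]; exact Finset.prod_eq_zero hp0 hX0
    have h1 : φ (Q a) = C (a i0 j0) * ∏ q ∈ P.erase ⟨i0, j0⟩, φ (X q.1 - X q.2) := by
      rw [hQ]
      simp only
      rw [map_sum, Finset.sum_eq_single_of_mem _ hp0]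
      · rw [map_mul, map_add, map_mul, hD0, mul_zero, zero_add, map_prod]
        simp [hφ]
      · intro p _ hpne
        have h2 : ∏ q ∈ P.erase p, φ (X q.1 - X q.2) = 0 :=
          Finset.prod_eq_zero (Finset.mem_erase.2 ⟨hpne.symm, hp0⟩) hX0
        rw [map_mul, map_add, map_mul, hD0, map_prod, h2, mul_zero, add_zero, mul_zero]
    rw [h0, map_zero] at h1
    have h2 : (C (a i0 j0) : MvPolynomial (Fin n) F) ≠ 0 := by
      rw [Ne, C_eq_zero]; exact hne
    have h3 : ∏ q ∈ P.erase ⟨i0, j0⟩, φ (X q.1 - X q.2) ≠ 0 := by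
      rw [Finset.prod_ne_zero_iff]
      rintro ⟨k, l⟩ hq h4
      rw [Finset.mem_erase, hmem] at hq
      obtain ⟨hne2, hkl⟩ := hq
      simp only at hkl h4
      rw [map_sub, hX, hX, sub_eq_zero] at h4
      have h5 := X_injective h4
      split_ifs at h5 with h6 h7 h7
      · rw [h6, h7] at hkl; exact absurd hkl (lt_irrefl _)
      · rw [h6, ← h5] at hkl; exact absurd (hkl.trans hij) (lt_irrefl _)
      · exact hne2 (by rw [h5, h7])
      · exact absurd hkl (by rw [h5]; exact lt_irrefl _)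
    exact (mul_ne_zero h2 h3) h1.symm
  have hDne : D ≠ 0 := by
    rw [hD, Finset.prod_ne_zero_iff]
    intro p hp h4
    rw [hmem] at hp
    rw [sub_eq_zero] at h4
    exact hp.ne (X_injective h4)
  have hall : D * ∏ a ∈ S, Q a ≠ 0 := mul_ne_zero hDne (Finset.prod_ne_zero_iff.2 hQne)
  obtain ⟨m, hm⟩ : ∃ m : Fin n → F, eval m (D * ∏ a ∈ S, Q a) ≠ 0 := by
    by_contra hcon
    push Not at hcon
    exact hall (MvPolynomial.funext fun x => by rw [hcon x, map_zero])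
  rw [map_mul, map_prod] at hm
  have hDm : eval m D ≠ 0 := left_ne_zero_of_mul hm
  have hSm : ∀ a ∈ S, eval m (Q a) ≠ 0 := Finset.prod_ne_zero_iff.1 (right_ne_zero_of_mul hm)
  have hDe : eval m D = ∏ p ∈ P, (m p.1 - m p.2) := by
    rw [hD, map_prod]
    exact Finset.prod_congr rfl fun p _ => by rw [map_sub, eval_X, eval_X]
  have hfac : ∀ p ∈ P, m p.1 - m p.2 ≠ 0 := by
    rw [hDe] at hDm
    exact Finset.prod_ne_zero_iff.1 hDm
  refine ⟨m, ?_, ?_⟩
  · intro i j h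
    by_contra hne
    rcases lt_or_gt_of_ne hne with h1 | h1
    · exact hfac ⟨i, j⟩ ((hmem _).2 h1) (sub_eq_zero.2 h)
    · exact hfac ⟨j, i⟩ ((hmem _).2 h1) (sub_eq_zero.2 h.symm)
  · intro a ha h0
    apply hSm a ha
    have h1 : eval m (Q a) = eval m D * ∑ i, ∑ j ∈ Finset.Ioi i, a i j * (A + 1 / (m i - m j)) := by
      have h2 : ∑ i, ∑ j ∈ Finset.Ioi i, a i j * (A + 1 / (m i - m j)) =
          ∑ p ∈ P, a p.1 p.2 * (A + 1 / (m p.1 - m p.2)) := by
        rw [hP, Finset.sum_sigma]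
      rw [h2, Finset.mul_sum, hQ]
      simp only
      rw [map_sum]
      refine Finset.sum_congr rfl fun p hp => ?_
      rw [map_mul, map_add, map_mul, eval_C, eval_C, map_prod]
      have h3 : eval m D = (m p.1 - m p.2) * ∏ q ∈ P.erase p, (m q.1 - m q.2) := by
        rw [hDe, ← Finset.mul_prod_erase P _ hp]
      have h4 : ∏ q ∈ P.erase p, eval m (X q.1 - X q.2 : MvPolynomial (Fin n) F) =
          ∏ q ∈ P.erase p, (m q.1 - m q.2) :=
        Finset.prod_congr rfl fun q _ => by rw [map_sub, eval_X, eval_X]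
      rw [h4]
      have h5 := hfac p hp
      have h6 : ∏ q ∈ P.erase p, (m q.1 - m q.2) = eval m D * (1 / (m p.1 - m p.2)) := by
        rw [h3]; field_simp
      rw [h6]; ring
    rw [h1, h0, mul_zero]

end Pool.Agent.H42.EC
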