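import Pool.Agent.H13.EC.Defs

/-!
# MP_6b5a9a_nt: module SURJ (simultaneous solutions for generic `w`)
-/

namespace Pool.Agent.H42.EC

universe u

/-- in an elementary abelian 2-group every proper subgroup lies in the kernel of a nonzero
character -/
theorem exists_char {U : Type u} [AddCommGroup U] (h2 : ∀ x : U, x + x = 0) (R : AddSubgroup U)
    (hR : R ≠ ⊤) : ∃ χ : U →+ ZMod 2, χ ≠ 0 ∧ ∀ x ∈ R, χ x = 0 := by
  let _ : Module (ZMod 2) U := AddCommGroup.zmodModule (n := 2) (by
    intro x; rw [two_nsmul]; exact h2 x)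
  have h1 : AddSubgroup.toZModSubmodule 2 R < ⊤ := by
    rw [lt_top_iff_ne_top]
    intro h
    apply hR
    rw [eq_top_iff]
    intro x _
    have : x ∈ AddSubgroup.toZModSubmodule 2 R := by rw [h]; trivial
    exact this
  obtain ⟨f, hf, hk⟩ := Submodule.exists_le_ker_of_lt_top _ h1
  refine ⟨f.toAddMonoidHom, ?_, fun x hx => ?_⟩
  · intro h
    apply hf
    ext x
    exact DFunLike.congr_fun h x
  · exact hk (show x ∈ AddSubgroup.toZModSubmodule 2 R from hx)

theorem surj : Pool.Agent.H13.EC.T_SURJ.{u} := by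
  intro F V _ _ _ _ ι _ ψ
  classical
  obtain ⟨H, hH⟩ : ∃ H : (ι → F) → F → (ι → ψ.range), H = fun w x i => ψ.rangeRestrict (w i * x) :=
    ⟨_, rfl⟩
  have hHadd : ∀ w x y, H w (x + y) = H w x + H w y := by
    intro w x y; rw [hH]; funext i
    show ψ.rangeRestrict (w i * (x + y)) = ψ.rangeRestrict (w i * x) + ψ.rangeRestrict (w i * y)
    rw [mul_add, map_add]
  have hH0 : ∀ w, H w 0 = 0 := by
    intro w; rw [hH]; funext i
    show ψ.rangeRestrict (w i * 0) = 0
    rw [mul_zero, map_zero]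
  have hHw : ∀ w w' x, H (w + w') x = H w x + H w' x := by
    intro w w' x; rw [hH]; funext i
    show ψ.rangeRestrict ((w i + w' i) * x) = ψ.rangeRestrict (w i * x) + ψ.rangeRestrict (w' i * x)
    rw [add_mul, map_add]
  have hH0' : ∀ x, H 0 x = 0 := by
    intro x; rw [hH]; funext i
    show ψ.rangeRestrict ((0 : F) * x) = 0
    rw [zero_mul, map_zero]
  have hHb : ∀ (b : F) w x, H (b • w) x = H w (b * x) := by
    intro b w x; rw [hH]; funext i
    show ψ.rangeRestrict ((b * w i) * x) = ψ.rangeRestrict (w i * (b * x))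
    congr 1; ring
  have hU2 : ∀ z : ι → ψ.range, z + z = 0 := by
    intro z; funext i
    obtain ⟨y, hy⟩ := ψ.rangeRestrict_surjective (z i)
    show z i + z i = 0
    rw [← hy, ← map_add, CharTwo.add_self_eq_zero, map_zero]
  -- the subspaces
  have key : ∀ χ : (ι → ψ.range) →+ ZMod 2, χ ≠ 0 → ∃ a : ι → F, a ≠ 0 ∧
      ∀ w : ι → F, (∀ x, χ (H w x) = 0) → ∑ i, a i * w i = 0 := by
    intro χ hχ
    obtain ⟨Z, hZ⟩ : ∃ Z : Submodule F (ι → F), ∀ w, w ∈ Z ↔ ∀ x, χ (H w x) = 0 :=
      ⟨{ carrier := {w | ∀ x, χ (H w x) = 0}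
         add_mem' := fun {w w'} h h' x => by rw [hHw, map_add, h, h', add_zero]
         zero_mem' := fun x => by rw [hH0', map_zero]
         smul_mem' := fun b w h x => by rw [hHb]; exact h _ }, fun w => Iff.rfl⟩
    have hlt : Z < ⊤ := by
      rw [lt_top_iff_ne_top]
      intro h
      apply hχ
      refine AddMonoidHom.ext fun z => ?_
      choose y hy using fun i => ψ.rangeRestrict_surjective (z i)
      have h1 : y ∈ Z := by rw [h]; trivial
      have h2 := (hZ y).1 h1 1
      have h3 : H y 1 = z := by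
        rw [hH]; funext i
        show ψ.rangeRestrict (y i * 1) = z i
        rw [mul_one, hy]
      rw [h3] at h2
      rw [h2]; rfl
    obtain ⟨f, hf, hk⟩ := Submodule.exists_le_ker_of_lt_top _ hlt
    have hsum : ∀ w, f w = ∑ i, f (Pi.single i 1) * w i := by
      intro w
      conv_lhs => rw [← Finset.univ_sum_single w]
      rw [map_sum]
      refine Finset.sum_congr rfl fun i _ => ?_
      have : (Pi.single i (w i) : ι → F) = w i • Pi.single i 1 := by
        rw [← Pi.single_smul', smul_eq_mul, mul_one]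
      rw [this, map_smul, smul_eq_mul, mul_comm]
    refine ⟨fun i => f (Pi.single i 1), ?_, fun w hw => ?_⟩
    · intro h
      apply hf
      refine LinearMap.ext fun w => ?_
      rw [hsum w]
      have : ∀ i, f (Pi.single i 1) = 0 := fun i => congrFun h i
      simp [this]
    · rw [← hsum w]
      exact hk ((hZ w).2 hw)
  have : Finite ((ι → ψ.range) →+ ZMod 2) :=
    Finite.of_injective (fun f => (f : (ι → ψ.range) → ZMod 2)) DFunLike.coe_injective
  have := Fintype.ofFinite ((ι → ψ.range) →+ ZMod 2)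
  choose! a ha0 ha using key
  refine ⟨(Finset.univ.filter (fun χ : (ι → ψ.range) →+ ZMod 2 => χ ≠ 0)).image a, ?_, ?_⟩
  · intro b hb
    obtain ⟨χ, hχ, rfl⟩ := Finset.mem_image.1 hb
    exact ha0 χ (Finset.mem_filter.1 hχ).2
  · intro w hw c
    obtain ⟨G, hG⟩ : ∃ G : F →+ (ι → ψ.range), ∀ x, G x = H w x :=
      ⟨{ toFun := H w, map_zero' := hH0 w, map_add' := hHadd w }, fun x => rfl⟩
    have hs : G.range = ⊤ := by
      by_contra hne
      obtain ⟨χ, hχ, hχR⟩ := exists_char hU2 _ hne
      refine hw (a χ) (Finset.mem_image.2 ⟨χ, Finset.mem_filter.2 ⟨Finset.mem_univ _, hχ⟩, rfl⟩) ?_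
      refine ha χ hχ w fun x => ?_
      rw [← hG]
      exact hχR _ ⟨x, rfl⟩
    have h1 : (fun i => ψ.rangeRestrict (c i)) ∈ G.range := by rw [hs]; trivial
    obtain ⟨x, hx⟩ := h1
    refine ⟨x, fun i => ?_⟩
    have h2 := congrFun hx i
    rw [hG, hH] at h2
    exact congrArg Subtype.val h2

end Pool.Agent.H42.EC
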